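import Mathlib
import Pool.Agent.N141.TS.Thin
import Pool.Agent.N365.LS.F6

/-!
# Lang and Silverman's lower bound along thin sequences of elliptic curves in families with several
# parameters, for all forms of the powers of all their twists

Let `J = A / D` be a rational function over `ℚ` in `r` variables, for example the `j`-invariant of an
elliptic curve over `ℚ(t₁, …, t_r)`, whose reductions modulo the primes have many poles in the mean
(`MeanPoles`); this is so for the universal family `y² = x³ + t₁ x + t₂`. Let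
`P_i(n) = ∑ a_x n ^ x` be sums of real powers with real coefficients whose largest exponents are
positive, distinct and not integers and have positive coefficients, for example `n ^ √2`,
`π n ^ 0.3`. For every `ε > 0` there is a constant `c > 0` such that for all but `ε N` of the
integers `n` in `(N, 2 N]`, `N` large, and for all but the proportion `ε` of the primes `n` in
`(N, 2 N]`, the lower bound of Lang and Silverman holds with the constant `c` at
`j = J (⌊P₁(n)⌋, …, ⌊P_r(n)⌋)` for all elliptic curves `E` of invariant `j` over all number fields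
`K` of degree at most `d` and for all forms over `K` of the powers `E ^ g`.

`E : y² = x³ + a x + b` is an elliptic curve of invariant `j` with `a`, `b` integral of height at
most `κ (1 + h(j))`.  A finite Galois extension `L` of `K` and a representation `ρ` of its group by
integral matrices of size `g` define an abelian variety `A` over `K`, the form of `E ^ g` with
`A(K) = {P ∈ E(L) ^ g | ρ(σ) σ(P) = P for all σ}` (`FixedPt ρ P`); for `g = 1` these are `E` and all
its quadratic twists.  A symmetric positive definite integral matrix `M` with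
`ρ(σ)ᵀ M ρ(σ) = M` (`Polar ρ M`) is a polarization of `A` over `K`; the corresponding absolute
canonical height is `chatM M P / [L : ℚ]`.

`Pts L a b` is the group of points over `L`, `sht P` the height of the `x`-coordinate, `chat P` the
canonical height (`ChatLim`: the limit of `4⁻ⁿ sht (2ⁿ P)`), and `RamPrimes K T` says that for each
prime `v` in `T` there is `σ ≠ 1` in the inertia group.  `logNorms T` is the sum of `log N v`,
`v ∈ T`, and `absH` is the absolute logarithmic height.  `DenseOrbit ρ P` says that no non-zero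
homomorphism from `E ^ g` to `E` given by integers kills, modulo torsion, all `φ(P)`, `φ` an
integral matrix commuting with `ρ`, that is an endomorphism of `A` over `K`.  `Generates P` says
that `σ(P) ≠ P` for `σ ≠ 1`.

Proof. The integer vectors `⌊P_i(n)⌋` are jointly equidistributed modulo all `q ≤ N ^ δ`, over the
integers and over the primes (exponential sums, `Pool.Agent.N666`). By Turan's sieve with the primes
`p` in `(N ^ (τ δ), N ^ δ]`, `τ` small, all but the proportion `ε` of the `n` have such a prime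
dividing `D` and not `A`; by the Schwartz-Zippel lemma `D ≠ 0` for almost all `n`. This prime is in
the denominator of `j`, whose height is `O(log N)`, and this is enough for the bound
(`Pool.Agent.N365.LS.of_enough`).
-/

set_option autoImplicit false

namespace Pool.Agent.Results.MP_9a3c31_nt.ThinSequences

open Pool.Agent.TH910.LS Pool.Agent.Y725.LS NumberField IsDedekindDomain MvPolynomial

/-- the bound, with constant `c`, for all forms of dimension `g` of the powers of the curve
`y² = x³ + a x + b` over `K` that are split by `L` -/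
def LangSilverman (c : ℝ) (g : ℕ) {K : Type} [Field K] [NumberField K] (a b : 𝓞 K) (L : Type)
    [Field L] [NumberField L] [Algebra K L] [DecidableEq L] : Prop :=
  ∀ (ρ : (L ≃ₐ[K] L) →* Matrix (Fin g) (Fin g) ℤ) (M : Matrix (Fin g) (Fin g) ℤ)
    (P : Fin g → Pts L a b) (T : Finset (HeightOneSpectrum (𝓞 L))),
    Polar ρ M → FixedPt ρ P → RamPrimes K T →
    (Generates P ∧ ¬ IsOfFinAddOrder P) ∨ (Faithful ρ ∧ DenseOrbit ρ P) →
      c * (1 + absH (jinv (a : K) b) + logNorms T / Module.finrank ℚ L) ≤
        chatM M P / Module.finrank ℚ L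

/-- the bound, with constant `c`, holds for all elliptic curves of invariant `j` over all number
fields of degree at most `d`, given by an integral equation `y² = x³ + a x + b` whose coefficients
have height at most `κ (1 + h(j))`, and for all forms of dimension `g` of their powers -/
def HoldsAt (c : ℝ) (d g : ℕ) (κ : ℝ) (j : ℚ) : Prop :=
  ∀ (K : Type) [Field K] [NumberField K], Module.finrank ℚ K ≤ d →
    ∀ a b : 𝓞 K, 4 * (a : K) ^ 3 + 27 * (b : K) ^ 2 ≠ 0 →
      absH (a : K) + absH (b : K) ≤ κ * (1 + absH (jinv (a : K) b)) → jinv (a : K) b = (j : K) →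
      ∀ (L : Type) [Field L] [NumberField L] [Algebra K L] [IsGalois K L] [DecidableEq L],
        ChatLim L a b ∧ LangSilverman c g a b L

/-- the sum over the primes `y < p ≤ x` of the proportion of the vectors modulo `p` that are zeros of
`D` but not of `A` is at least `δ (log log x - log log y) - C` -/
def MeanPoles {r : ℕ} (A D : MvPolynomial (Fin r) ℤ) : Prop :=
  ∃ δ C : ℝ, 0 < δ ∧ ∀ y x : ℕ, 3 ≤ y → y ≤ x →
    δ * (Real.log (Real.log x) - Real.log (Real.log y)) - C ≤
      ∑ p ∈ (Finset.Ioc y x).filter Nat.Prime,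
        ({ρ : Fin r → ZMod p | aeval ρ D = 0 ∧ aeval ρ A ≠ 0}.ncard : ℝ) / (p : ℝ) ^ r

/-- `c` is the largest exponent of the generalised polynomial `∑ a_x n ^ x`; it is positive and not
an integer and has a positive coefficient. -/
def Admissible (F : Finset ℝ) (a : ℝ → ℝ) (c : ℝ) : Prop :=
  c ∈ F ∧ (∀ x ∈ F, x ≤ c) ∧ 0 < c ∧ (∀ m : ℕ, c ≠ m) ∧ 0 < a c

/-- the integer parts of the values at `n` of the generalised polynomials -/
noncomputable def value {r : ℕ} (F : Fin r → Finset ℝ) (a : Fin r → ℝ → ℝ) (n : ℕ) : Fin r → ℤ :=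
  fun i => ⌊∑ x ∈ F i, a i x * (n : ℝ) ^ x⌋

/-- `v` is not a pole of `A / D` and the bound holds at `(A / D) (v)` -/
def Holds (c : ℝ) (d g : ℕ) (κ : ℝ) {r : ℕ} (A D : MvPolynomial (Fin r) ℤ) (v : Fin r → ℤ) : Prop :=
  eval v D ≠ 0 ∧ HoldsAt c d g κ ((eval v A : ℤ) / (eval v D : ℤ))

/-- **Theorem.** (1) The bound of Lang and Silverman, with a constant `c₀ > 0` depending on `ε`, holds
for all elliptic curves of invariant `J (⌊P₁(n)⌋, …, ⌊P_r(n)⌋)` over number fields of degree at most
`d` and all forms of their `g`-th powers, for all but `ε N` of the integers `n` in `(N, 2 N]` and for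
all but the proportion `ε` of the primes in `(N, 2 N]`, `N ≥ N₀`. (2) The invariant
`6912 t₁³ / (4 t₁³ + 27 t₂²)` of the universal family `y² = x³ + t₁ x + t₂` has many poles in the
mean. (3) Every `j ≠ 0, 1728` is the invariant of a curve with small coefficients, as assumed in
`HoldsAt`, with a `κ` depending only on `d`. -/
theorem result :
    (∀ (r : ℕ) (A D : MvPolynomial (Fin r) ℤ), 0 < r → D ≠ 0 → MeanPoles A D →
      ∀ (F : Fin r → Finset ℝ) (a : Fin r → ℝ → ℝ) (c : Fin r → ℝ),
        (∀ i, Admissible (F i) (a i) (c i)) → Function.Injective c →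
      ∀ (d g : ℕ) (κ ε : ℝ), 0 < g → 0 ≤ κ → 0 < ε → ∃ (c₀ : ℝ) (N₀ : ℕ), 0 < c₀ ∧
        ∀ N : ℕ, N₀ ≤ N →
          ({n : ℕ | n ∈ Finset.Ioc N (2 * N) ∧ ¬ Holds c₀ d g κ A D (value F a n)}.ncard : ℝ) ≤
            ε * N ∧
          ({n : ℕ | n ∈ (Finset.Ioc N (2 * N)).filter Nat.Prime ∧
              ¬ Holds c₀ d g κ A D (value F a n)}.ncard : ℝ) ≤
            ε * ((Finset.Ioc N (2 * N)).filter Nat.Prime).card) ∧
    MeanPoles (C 6912 * X 0 ^ 3 : MvPolynomial (Fin 2) ℤ) (C 4 * X 0 ^ 3 + C 27 * X 1 ^ 2) ∧
    (∀ d : ℕ, ∃ κ : ℝ, 0 ≤ κ ∧ ∀ (K : Type) [Field K] [NumberField K],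
      Module.finrank ℚ K ≤ d → ∀ j : K, j ≠ 0 → j ≠ 1728 → ∃ a b : 𝓞 K,
        4 * (a : K) ^ 3 + 27 * (b : K) ^ 2 ≠ 0 ∧ jinv (a : K) b = j ∧
        absH (a : K) + absH (b : K) ≤ κ * (1 + absH j)) := by
  refine ⟨fun r A D hr hD hM F a c h hc d g κ ε hg hκ hε => ?_, Pool.Agent.N141.TS.mean_wei,
    Pool.Agent.Y728.AK.exists_model⟩
  obtain ⟨σ, hσ, N₀, hN₀⟩ := Pool.Agent.N141.TS.thin hr hD hM ⟨h, hc⟩ ε hε
  obtain ⟨c₀, hc₀, h1⟩ := Pool.Agent.N365.LS.of_enough d g hg κ σ hκ hσ
  have key : ∀ v : Fin r → ℤ, Pool.Agent.N141.TS.Big σ (eval v A) (eval v D) →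
      Holds c₀ d g κ A D v := by
    rintro v ⟨h2, p, hp, h3, h4, H, h5, h6, h7, h8⟩
    refine ⟨h2, h1 _ _ ⟨h2, {p}, ?_, H, h5, h6, h7, ?_, ?_⟩⟩
    · intro q hq
      rw [Finset.mem_singleton] at hq
      subst hq
      exact ⟨hp, h3, h4⟩
    · intro h0
      exact h4 (h0 ▸ dvd_zero _)
    · rw [Finset.prod_singleton]
      exact h8
  refine ⟨c₀, N₀, hc₀, fun N hN => ?_⟩
  obtain ⟨k1, k2⟩ := hN₀ N hN
  rw [Nat.card_Ioc, show 2 * N - N = N by omega] at k1
  exact ⟨(Pool.Agent.N141.TS.ncard_mono fun n _ hn hb => hn (key _ hb)).trans k1,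
    (Pool.Agent.N141.TS.ncard_mono fun n _ hn hb => hn (key _ hb)).trans k2⟩

end Pool.Agent.Results.MP_9a3c31_nt.ThinSequences
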